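import Pool.Agent.H58.FM.TC2
import Pool.Agent.H42.FR.SP

/-!
# Row CR3: the configurations of the points of the neighbourhood
-/

set_option autoImplicit false

namespace Pool.Agent.H10.FM

noncomputable section

open Pool.Agent.H59 Pool.Agent.H48.FR Pool.Agent.H58.FL Pool.Agent.H30.FA Pool.Agent.H58.FM

theorem compact_CPn (n : ℕ) : CompactSpace (CPn n) := by
  obtain ⟨hcS, hcQ, hπc, hπs⟩ := Pool.Agent.H42.FR.sp ℂ n
  have h : Set.range (prS : Sph ℂ n → PP ℂ n) = Set.univ := hπs.range_eq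
  have h1 : CompactSpace (PP ℂ n) := by
    rw [← isCompact_univ_iff, ← h]
    exact isCompact_range hπc
  exact h1

theorem pf_CR3 (hWGT : T_WGT) (hEIG : T_EIG) (hGAP : T_GAP) (hRPM : T_RPM) : T_CR3 := by
  intro κ k ε hε hκ hκ1 hεπ hεκ
  have h1 := compact_CPn (k + 2)
  have h2 : Nonempty (CPn (k + 2)) := ⟨bp ℂ (k + 2)⟩
  obtain ⟨δ, hδ0, hδ1, hδ2⟩ : ∃ δ : ℝ, 0 < δ ∧ 2 * (ε + δ) ≤ Real.arccos (2 * κ - 1) / 2 ∧
      ε + δ ≤ Real.pi / 6 := by
    refine ⟨min (Real.arccos (2 * κ - 1) / 4 - ε) (Real.pi / 6 - ε),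
      lt_min (by linarith) (by linarith), ?_, ?_⟩
    · have := min_le_left (Real.arccos (2 * κ - 1) / 4 - ε) (Real.pi / 6 - ε)
      linarith
    · have := min_le_right (Real.arccos (2 * κ - 1) / 4 - ε) (Real.pi / 6 - ε)
      linarith
  obtain ⟨N, P, t, L, hL, hW, hadj, hkf, hlip⟩ := hWGT (CPn (k + 2)) ε δ hε hδ0
  obtain ⟨r1, r2, -, r4, -⟩ := hRPM (k + 2)
  have hC : ∀ u : UE (CPn (k + 2)) ε, ∃ C : Cfg κ (Fin N) (V (k + 1 + 2)) (k + 1 + 2),
      C.t = t u ∧ C.x = (fun j => rp (P j)) ∧ Antitone C.r := by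
    intro u
    refine hEIG κ (Fin N) (k + 1 + 2) (t u) (fun j => rp (P j)) (hW u) (fun j => r1 (P j)) ?_
    intro i j hi hj
    exact r4 κ (P i) (P j) (by linarith) hκ1 (lt_of_lt_of_le (hadj u i j hi hj) hδ1)
  choose C hCt hCx hCr using hC
  refine ⟨N, fun j => rp (P j), C, L, fun j => r1 (P j), hL, hCx, hCr, ?_, ?_⟩
  · intro u v
    simp only [hCt]
    exact hlip u v
  · intro p
    have hg := hGAP κ (Fin N) k (C (kf (CPn (k + 2)) ε hε p)) (rp p) (hCr _) (r1 p) (by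
      intro j hj
      rw [hCt] at hj
      have hd := hkf hε p j hj
      have e1 : (C (kf (CPn (k + 2)) ε hε p)).x j = rp (P j) := by
        rw [hCx]
      have e2 : ‖inner ℂ (rp p : V (k + 1 + 2)) (rp (P j))‖ = Real.cos (dist p (P j)) :=
        r2 p (P j)
      rw [e1, e2, dist_comm]
      have hcos : Real.cos (Real.pi / 6) ≤ Real.cos (dist (P j) p) :=
        Real.cos_le_cos_of_nonneg_of_le_pi dist_nonneg (by linarith [Real.pi_pos]) (by linarith)
      rw [Real.cos_pi_div_six] at hcos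
      have h3 := Real.sq_sqrt (show (0 : ℝ) ≤ 3 by norm_num)
      have h4 := Real.sqrt_nonneg 3
      nlinarith)
    refine ⟨hg.1, ?_⟩
    have h5 := hg.2
    rw [norm_inner_symm] at h5
    exact h5

end

end Pool.Agent.H10.FM
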